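import Mathlib
import Pool.Agent.H13.NipSeq.IpFin

/-!
A complete theory with a global NIP type, non-forking over the empty set, all of whose Morley
sequences over the empty set have IP restrictions forever: a positive answer to Q1 and Q2.
-/

set_option autoImplicit false

open FirstOrder FirstOrder.Language Cardinal

namespace Pool.Agent.Results.MP_41e3b3_lc.MorleyIP

open Pool.Agent.H13.NipSeq

universe u

/-- There is a complete theory `T` such that every `κ`-saturated model `M` of `T`, `κ`
uncountable, has a global NIP type `p` which does not fork over the empty set, which has a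
Morley sequence over the empty set, and such that for every Morley sequence `(a i)` of `p` over
the empty set and every `n` the restriction of `p` to `{a j : j < n}` has IP. -/
theorem result : ∃ (L : FirstOrder.Language.{0, 0}) (T : L.Theory), T.IsComplete ∧
    ∀ (M : Type u) [L.Structure M] (κ : Cardinal.{u}), ℵ₀ < κ → M ⊨ T → IsSaturated L M κ →
      ∃ p : GlobalType L M, p.IsNIP ∧ p.NonForking ∅ ∧ (∃ a : ℕ → M, p.IsMorley ∅ a) ∧
        ∀ a : ℕ → M, p.IsMorley ∅ a → ∀ n : ℕ,
          p.RestrictionHasIP (∅ ∪ {x | ∃ j < n, x = a j}) := by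
  refine ⟨Lg, Tth, ?_, ?_⟩
  · have : Nonempty Pt := ⟨cp 0 0⟩
    exact completeTheory.isComplete Lg Pt
  · intro M _ κ hκ hM hs
    obtain ⟨p, hp⟩ := exists_global (M := M) hM
    exact ⟨p, isNIP hM p hp, nonForking hM p hp, exists_morley hM hκ hs p hp,
      fun a _ n => restriction_hasIP hM hκ hs p hp a n⟩

end Pool.Agent.Results.MP_41e3b3_lc.MorleyIP
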